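import Pool.Agent.Helper84.SQ.GoalsD

/-! Packet SQ-LIN: Cramer's rule with bounds. -/

namespace Pool.Agent.Helper38.SQ

open Matrix Pool.Agent.Helper84.SQ

section

variable {a b : ℕ} (S : Matrix (Fin a) (Fin b) ℤ)

/-- Some minor of order `r` is not zero. -/
def Q (r : ℕ) : Prop := ∃ (e : Fin r → Fin a) (f : Fin r → Fin b), (S.submatrix e f).det ≠ 0

theorem Q_zero : Q S 0 := ⟨fun i => i.elim0, fun i => i.elim0, by simp⟩

theorem inj_e {r : ℕ} {e : Fin r → Fin a} {f : Fin r → Fin b}
    (h : (S.submatrix e f).det ≠ 0) : Function.Injective e := by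
  intro i j hij
  by_contra hne
  exact h (Matrix.det_zero_of_row_eq hne (by funext l; simp [Matrix.submatrix, hij]))

theorem inj_f {r : ℕ} {e : Fin r → Fin a} {f : Fin r → Fin b}
    (h : (S.submatrix e f).det ≠ 0) : Function.Injective f := by
  intro i j hij
  by_contra hne
  exact h (Matrix.det_zero_of_column_eq hne (by intro l; simp [Matrix.submatrix, hij]))

theorem Q_le {r : ℕ} (h : Q S r) : r ≤ a ∧ r ≤ b := by
  obtain ⟨e, f, h⟩ := h
  have h1 := Fintype.card_le_of_injective e (inj_e S h)
  have h2 := Fintype.card_le_of_injective f (inj_f S h)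
  simp only [Fintype.card_fin] at h1 h2
  exact ⟨h1, h2⟩

/-- The bordered minor. -/
theorem border {r : ℕ} (e : Fin r → Fin a) (f : Fin r → Fin b)
    (h : (S.submatrix e f).det ≠ 0) (hmax : ¬ Q S (r + 1)) (i : Fin a) (j : Fin b) :
    (S.submatrix e f).det * S i j =
      ∑ α, ∑ β, S i (f α) * (S.submatrix e f).adjugate α β * S (e β) j := by
  -- the bordered matrix has determinant zero
  have h0 : (S.submatrix (Sum.elim e (fun _ : Unit => i)) (Sum.elim f (fun _ : Unit => j))).det
      = 0 := by
    by_contra hne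
    apply hmax
    let φ : Fin (r + 1) ≃ Fin r ⊕ Unit :=
      (finSumFinEquiv (m := r) (n := 1)).symm.trans
        (Equiv.sumCongr (Equiv.refl _) (Equiv.ofUnique (Fin 1) Unit))
    refine ⟨Sum.elim e (fun _ => i) ∘ φ, Sum.elim f (fun _ => j) ∘ φ, ?_⟩
    have := Matrix.det_submatrix_equiv_self φ
      (S.submatrix (Sum.elim e (fun _ : Unit => i)) (Sum.elim f (fun _ : Unit => j)))
    rw [Matrix.submatrix_submatrix] at this
    rw [this]
    exact hne
  -- over ℚ
  let B : Matrix (Fin r) (Fin r) ℚ := (S.submatrix e f).map (Int.cast : ℤ → ℚ)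
  have hB : B.det = ((S.submatrix e f).det : ℚ) := by
    have := (Int.castRingHom ℚ).map_det (S.submatrix e f)
    simpa [B, RingHom.mapMatrix_apply] using this.symm
  have hB0 : B.det ≠ 0 := by rw [hB]; exact_mod_cast h
  have hadj : B.adjugate = (S.submatrix e f).adjugate.map (Int.cast : ℤ → ℚ) := by
    have := (Int.castRingHom ℚ).map_adjugate (S.submatrix e f)
    simpa [B, RingHom.mapMatrix_apply] using this.symm
  have : Invertible B := Matrix.invertibleOfIsUnitDet B (isUnit_iff_ne_zero.2 hB0)
  let u : Matrix (Fin r) Unit ℚ := fun β _ => (S (e β) j : ℚ)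
  let v : Matrix Unit (Fin r) ℚ := fun _ α => (S i (f α) : ℚ)
  let s : Matrix Unit Unit ℚ := fun _ _ => (S i j : ℚ)
  have h1 : (S.submatrix (Sum.elim e (fun _ : Unit => i))
      (Sum.elim f (fun _ : Unit => j))).map (Int.cast : ℤ → ℚ) = fromBlocks B u v s := by
    ext x y
    rcases x with x | x <;> rcases y with y | y <;> simp [B, u, v, s]
  have h2 : (fromBlocks B u v s).det = 0 := by
    rw [← h1]
    have := (Int.castRingHom ℚ).map_det
      (S.submatrix (Sum.elim e (fun _ : Unit => i)) (Sum.elim f (fun _ : Unit => j)))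
    rw [h0] at this
    simpa [RingHom.mapMatrix_apply] using this.symm
  rw [Matrix.det_fromBlocks₁₁] at h2
  have h3 : (s - v * ⅟B * u).det = 0 := by
    rcases mul_eq_zero.1 h2 with h3 | h3
    · exact absurd h3 hB0
    · exact h3
  have h4 : (S i j : ℚ) = ∑ β, (∑ α, (S i (f α) : ℚ) * (⅟B) α β) * (S (e β) j : ℚ) := by
    rw [Matrix.det_unique] at h3
    simp only [Matrix.sub_apply, Matrix.mul_apply, s, v, u] at h3
    linarith
  have h5 : (⅟B : Matrix (Fin r) (Fin r) ℚ) = B.det⁻¹ • B.adjugate := by
    rw [Matrix.invOf_eq_nonsing_inv, Matrix.inv_def, Ring.inverse_eq_inv']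
  have h6 : (((S.submatrix e f).det * S i j : ℤ) : ℚ) =
      ((∑ α, ∑ β, S i (f α) * (S.submatrix e f).adjugate α β * S (e β) j : ℤ) : ℚ) := by
    simp only [Int.cast_sum, Int.cast_mul]
    rw [← hB]
    have h7 : ∀ α β, (((S.submatrix e f).adjugate α β : ℤ) : ℚ) = B.adjugate α β := by
      intro α β; rw [hadj]; rfl
    simp only [h7]
    conv_lhs => rw [h4]
    rw [Finset.sum_comm, Finset.mul_sum]
    refine Finset.sum_congr rfl fun β _ => ?_
    rw [← Finset.sum_mul, ← mul_assoc, Finset.mul_sum]
    congr 1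
    refine Finset.sum_congr rfl fun α _ => ?_
    rw [h5, Matrix.smul_apply, smul_eq_mul]
    field_simp
  exact_mod_cast h6

end

theorem lin : LinStmt := by
  classical
  intro a b k H S ha hb hH hS
  -- the maximal order
  obtain ⟨r, hr, hmax⟩ : ∃ r, Q S r ∧ ¬ Q S (r + 1) := by
    by_contra hcon
    push Not at hcon
    have hall : ∀ r, Q S r := fun r => by
      induction r with
      | zero => exact Q_zero S
      | succ r ih => exact hcon r ih
    have := (Q_le S (hall (a + 1))).1
    omega
  have hrk : r ≤ k := (Q_le S hr).1.trans ha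
  obtain ⟨e, f, hdet⟩ := hr
  set B := S.submatrix e f with hBdef
  have he := inj_e S hdet
  have hf := inj_f S hdet
  -- bounds
  have hbound : ∀ M : Matrix (Fin r) (Fin r) ℤ, (∀ i j, |M i j| ≤ (H : ℤ)) →
      |M.det| ≤ (((k * H) ^ k : ℕ) : ℤ) := by
    intro M hM
    have h1 := Matrix.det_le (abv := AbsoluteValue.abs) (A := M) (x := (H : ℤ)) hM
    rw [Fintype.card_fin] at h1
    have h2 : r.factorial * H ^ r ≤ (k * H) ^ k := by
      rcases Nat.eq_zero_or_pos k with hk | hk
      · have : r = 0 := by omega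
        subst this; subst hk; simp
      · calc r.factorial * H ^ r ≤ k ^ r * H ^ r :=
              Nat.mul_le_mul_right _ ((Nat.factorial_le_pow r).trans (Nat.pow_le_pow_left hrk r))
          _ = (k * H) ^ r := by rw [mul_pow]
          _ ≤ (k * H) ^ k := Nat.pow_le_pow_right (Nat.mul_pos hk hH) hrk
    calc |M.det| ≤ r.factorial • (H : ℤ) ^ r := h1
      _ = ((r.factorial * H ^ r : ℕ) : ℤ) := by push_cast; simp
      _ ≤ _ := by exact_mod_cast h2
  have hBe : ∀ i j, |B i j| ≤ (H : ℤ) := fun i j => hS _ _
  have hadj : ∀ α β, |B.adjugate α β| ≤ (((k * H) ^ k : ℕ) : ℤ) := by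
    intro α β
    rw [Matrix.adjugate_apply]
    refine hbound _ fun i j => ?_
    rw [Matrix.updateRow_apply]
    split_ifs with h
    · rw [Pi.single_apply]
      split_ifs
      · simpa using hH
      · simp
    · exact hBe i j
  -- the matrix
  obtain ⟨sg, hsg1, hsg2⟩ : ∃ sg : ℤ, |sg| = 1 ∧ sg * B.det = (B.det.natAbs : ℤ) := by
    rcases le_total 0 B.det with h | h
    · exact ⟨1, by simp, by rw [one_mul, Int.natCast_natAbs, abs_of_nonneg h]⟩
    · exact ⟨-1, by simp, by rw [Int.natCast_natAbs, abs_of_nonpos h]; ring⟩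
  let P0 : Matrix (Fin b) (Fin a) ℤ := fun j l =>
    ∑ α, ∑ β, if f α = j ∧ e β = l then B.adjugate α β else 0
  let P : Matrix (Fin b) (Fin a) ℤ := fun j l => sg * P0 j l
  have hP0 : ∀ j l, |P0 j l| ≤ (((k * H) ^ k : ℕ) : ℤ) := by
    intro j l
    by_cases hj : ∃ α, f α = j
    · obtain ⟨α0, hα0⟩ := hj
      by_cases hl : ∃ β, e β = l
      · obtain ⟨β0, hβ0⟩ := hl
        have : P0 j l = B.adjugate α0 β0 := by
          simp only [P0]
          rw [Finset.sum_eq_single α0, Finset.sum_eq_single β0]
          · rw [if_pos ⟨hα0, hβ0⟩]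
          · intro β _ hβ
            rw [if_neg]
            rintro ⟨_, h⟩
            exact hβ (he (h.trans hβ0.symm))
          · intro h; exact absurd (Finset.mem_univ _) h
          · intro α _ hα
            refine Finset.sum_eq_zero fun β _ => ?_
            rw [if_neg]
            rintro ⟨h, _⟩
            exact hα (hf (h.trans hα0.symm))
          · intro h; exact absurd (Finset.mem_univ _) h
        rw [this]
        exact hadj _ _
      · have : P0 j l = 0 := by
          simp only [P0]
          refine Finset.sum_eq_zero fun α _ => Finset.sum_eq_zero fun β _ => ?_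
          rw [if_neg]
          rintro ⟨_, h⟩
          exact hl ⟨β, h⟩
        rw [this, abs_zero]
        positivity
    · have : P0 j l = 0 := by
        simp only [P0]
        refine Finset.sum_eq_zero fun α _ => Finset.sum_eq_zero fun β _ => ?_
        rw [if_neg]
        rintro ⟨h, _⟩
        exact hj ⟨α, h⟩
      rw [this, abs_zero]
      positivity
  have hid0 : ∀ i j', ∑ j, ∑ l, S i j * P0 j l * S l j' = B.det * S i j' := by
    intro i j'
    rw [border S e f hdet hmax i j']
    simp only [P0, Finset.mul_sum, Finset.sum_mul, mul_ite, ite_mul, mul_zero, zero_mul]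
    calc ∑ j, ∑ l, ∑ α, ∑ β, (if f α = j ∧ e β = l then
          S i j * B.adjugate α β * S l j' else 0)
        = ∑ α, ∑ β, ∑ j, ∑ l, (if f α = j ∧ e β = l then
          S i j * B.adjugate α β * S l j' else 0) := by
          calc _ = ∑ j, ∑ α, ∑ l, ∑ β, (if f α = j ∧ e β = l then
              S i j * B.adjugate α β * S l j' else 0) :=
                Finset.sum_congr rfl fun j _ => Finset.sum_comm
            _ = ∑ α, ∑ j, ∑ l, ∑ β, (if f α = j ∧ e β = l then
              S i j * B.adjugate α β * S l j' else 0) := Finset.sum_comm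
            _ = ∑ α, ∑ j, ∑ β, ∑ l, (if f α = j ∧ e β = l then
              S i j * B.adjugate α β * S l j' else 0) :=
                Finset.sum_congr rfl fun α _ => Finset.sum_congr rfl fun j _ => Finset.sum_comm
            _ = _ := Finset.sum_congr rfl fun α _ => Finset.sum_comm
      _ = _ := by
          refine Finset.sum_congr rfl fun α _ => Finset.sum_congr rfl fun β _ => ?_
          rw [Finset.sum_eq_single (f α), Finset.sum_eq_single (e β)]
          · rw [if_pos ⟨rfl, rfl⟩]
          · intro l _ hl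
            rw [if_neg]
            rintro ⟨_, h⟩
            exact hl h.symm
          · intro h; exact absurd (Finset.mem_univ _) h
          · intro j _ hj
            refine Finset.sum_eq_zero fun l _ => ?_
            rw [if_neg]
            rintro ⟨h, _⟩
            exact hj h.symm
          · intro h; exact absurd (Finset.mem_univ _) h
  refine ⟨B.det.natAbs, P, Nat.one_le_iff_ne_zero.2 (Int.natAbs_ne_zero.2 hdet), ?_, ?_, ?_⟩
  · have h1 := hbound B hBe
    rw [← Int.natCast_natAbs] at h1
    exact_mod_cast h1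
  · intro i j
    simp only [P]
    rw [abs_mul, hsg1, one_mul]
    exact hP0 i j
  · intro z i
    have hid : ∀ j', ∑ j, ∑ l, S i j * P j l * S l j' = (B.det.natAbs : ℤ) * S i j' := by
      intro j'
      rw [← hsg2, mul_assoc, ← hid0 i j', Finset.mul_sum]
      refine Finset.sum_congr rfl fun j _ => ?_
      rw [Finset.mul_sum]
      refine Finset.sum_congr rfl fun l _ => ?_
      simp only [P]
      ring
    have hidR : ∀ j', ∑ j, ∑ l, (S i j : ℝ) * (P j l : ℝ) * (S l j' : ℝ) =
        (B.det.natAbs : ℝ) * (S i j' : ℝ) := by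
      intro j'
      have h1 := congrArg (fun t : ℤ => (t : ℝ)) (hid j')
      simp only [Int.cast_sum, Int.cast_mul, Int.cast_natCast] at h1
      exact h1
    calc ∑ j, (S i j : ℝ) * ∑ l, (P j l : ℝ) * (∑ j', (S l j' : ℝ) * z j')
        = ∑ j, ∑ l, ∑ j', (S i j : ℝ) * (P j l : ℝ) * (S l j' : ℝ) * z j' := by
          refine Finset.sum_congr rfl fun j _ => ?_
          rw [Finset.mul_sum]
          refine Finset.sum_congr rfl fun l _ => ?_
          rw [Finset.mul_sum, Finset.mul_sum]
          exact Finset.sum_congr rfl fun j' _ => by ring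
      _ = ∑ j', ∑ j, ∑ l, (S i j : ℝ) * (P j l : ℝ) * (S l j' : ℝ) * z j' := by
          calc _ = ∑ j, ∑ j', ∑ l, (S i j : ℝ) * (P j l : ℝ) * (S l j' : ℝ) * z j' :=
                Finset.sum_congr rfl fun j _ => Finset.sum_comm
            _ = _ := Finset.sum_comm
      _ = ∑ j', (B.det.natAbs : ℝ) * (S i j' : ℝ) * z j' := by
          refine Finset.sum_congr rfl fun j' _ => ?_
          rw [← hidR j', Finset.sum_mul]
          exact Finset.sum_congr rfl fun j _ => by rw [Finset.sum_mul]
      _ = _ := by
          rw [Finset.mul_sum]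
          exact Finset.sum_congr rfl fun j' _ => by ring

end Pool.Agent.Helper38.SQ
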